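import Mathlib
import Pool.Agent.Lib.Helper4.BF.Frac
import Pool.Agent.Lib.Helper4.BF.Main

/-!
# A semi-local bound for the fractional chromatic index of linear hypergraphs

Proof of helper4: weights 1/(B - deg v) on the vertices missed by a matching of maximum weight.
-/

namespace Pool.Agent.H43S

open Finset Pool.Agent.Helper4.BF

variable {V : Type*} [DecidableEq V] {H M : Finset (Finset V)} {w : Finset V → ℝ}

/-- A matching of maximum weight, all weights positive, edges nonempty. -/
structure MM (H M : Finset (Finset V)) (w : Finset V → ℝ) : Prop where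
  lin : IsLinear H
  sub : M ⊆ H
  mat : IsMatching M
  pos : ∀ e ∈ H, 0 < w e
  max : ∀ N ⊆ H, IsMatching N → ∑ e ∈ N, w e ≤ ∑ e ∈ M, w e
  size : ∀ e ∈ H, 2 ≤ e.card

/-- The vertex is missed by M. -/
def Miss (M : Finset (Finset V)) (v : V) : Prop := ∀ f ∈ M, v ∉ f

open Classical in
/-- The missed vertices of the neighbourhood of u. -/
noncomputable def SU (H M : Finset (Finset V)) (u : V) : Finset V := (nbhd H u).filter (Miss M)

lemma MM.exch (h : MM H M w) {e : Finset V} (he : e ∈ H) : w e ≤ ∑ f ∈ hit M e, w f := by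
  classical
  by_cases heM : e ∈ M
  · have h1 : e ∈ hit M e := by
      rw [mem_hit]
      refine ⟨heM, ?_⟩
      intro hd
      rw [disjoint_self, Finset.bot_eq_empty] at hd
      have := h.size e he
      rw [hd] at this
      simp at this
    exact Finset.single_le_sum (f := w) (fun f hf => (h.pos f (h.sub (mem_hit.1 hf).1)).le) h1
  · set K := M.filter (fun f => Disjoint e f) with hK
    have hKM : K ⊆ M := filter_subset _ _
    have heK : e ∉ K := fun h' => heM (hKM h')
    have hm : IsMatching (insert e K) := by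
      intro a ha b hb hab
      rw [mem_insert] at ha hb
      rcases ha with rfl | ha
      · rcases hb with rfl | hb
        · exact absurd rfl hab
        · exact (mem_filter.1 hb).2
      · rcases hb with rfl | hb
        · exact (mem_filter.1 ha).2.symm
        · exact h.mat a (hKM ha) b (hKM hb) hab
    have h1 := h.max (insert e K) (by
      intro a ha
      rw [mem_insert] at ha
      rcases ha with rfl | ha
      · exact he
      · exact h.sub (hKM ha)) hm
    rw [Finset.sum_insert heK] at h1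
    have h2 : ∑ f ∈ K, w f + ∑ f ∈ hit M e, w f = ∑ f ∈ M, w f := by
      rw [hK, hit]
      exact Finset.sum_filter_add_sum_filter_not M (fun f => Disjoint e f) w
    linarith

lemma MM.hit_ne (h : MM H M w) {e : Finset V} (he : e ∈ H) : ∃ f ∈ M, ∃ x ∈ e, x ∈ f := by
  have h1 := h.exch he
  have h2 := h.pos e he
  have h3 : (hit M e).Nonempty := by
    rw [Finset.nonempty_iff_ne_empty]
    intro h0
    rw [h0, Finset.sum_empty] at h1
    linarith
  obtain ⟨f, hf⟩ := h3
  rw [mem_hit, Finset.not_disjoint_iff] at hf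
  obtain ⟨hf, x, hx, hx'⟩ := hf
  exact ⟨f, hf, x, hx, hx'⟩

/-- The count: |S_u| + deg v is at most |N[u] ∪ N[v]| if v is missed. -/
lemma MM.count (h : MM H M w) {u v : V} (hv : Miss M v) :
    (SU H M u).card + (H.filter (fun g => v ∈ g)).card ≤ (nbhd H u ∪ nbhd H v).card := by
  classical
  have hex : ∀ e ∈ H.filter (fun g => v ∈ g), ∃ x ∈ e, ∃ f ∈ M, x ∈ f := by
    intro e he
    obtain ⟨f, hf, x, hx, hx'⟩ := h.hit_ne (mem_filter.1 he).1
    exact ⟨x, hx, f, hf, hx'⟩
  have : Nonempty V := ⟨v⟩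
  choose! c hc using hex
  have hinj : Set.InjOn c (H.filter (fun g => v ∈ g) : Finset (Finset V)) := by
    intro e he e' he' hcc
    by_contra hne
    have h1 := hc e he
    have h2 := hc e' he'
    have h3 := (mem_filter.1 (Finset.mem_coe.1 he))
    have h4 := (mem_filter.1 (Finset.mem_coe.1 he'))
    have h5 := h.lin e h3.1 e' h4.1 hne
    have h6 : c e ≠ v := by
      intro h7
      obtain ⟨f, hf, hx⟩ := h1.2
      rw [h7] at hx
      exact hv f hf hx
    have h8 : ({c e, v} : Finset V) ⊆ e ∩ e' := by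
      intro z hz
      rw [mem_insert, mem_singleton] at hz
      rw [mem_inter]
      rcases hz with rfl | rfl
      · exact ⟨h1.1, by rw [hcc]; exact h2.1⟩
      · exact ⟨h3.2, h4.2⟩
    have h9 := Finset.card_le_card h8
    rw [Finset.card_pair h6] at h9
    omega
  have hT : (Finset.image c (H.filter (fun g => v ∈ g))).card = (H.filter (fun g => v ∈ g)).card :=
    Finset.card_image_of_injOn hinj
  rw [← hT, ← Finset.card_union_of_disjoint]
  · refine Finset.card_le_card ?_
    intro z hz
    rw [mem_union] at hz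
    rw [mem_union]
    rcases hz with hz | hz
    · left
      exact (mem_filter.1 hz).1
    · right
      rw [mem_image] at hz
      obtain ⟨e, he, rfl⟩ := hz
      rw [nbhd, mem_biUnion]
      exact ⟨e, he, (hc e he).1⟩
  · rw [Finset.disjoint_left]
    intro z hz hz'
    rw [mem_image] at hz'
    obtain ⟨e, he, rfl⟩ := hz'
    obtain ⟨f, hf, hx⟩ := (hc e he).2
    exact (mem_filter.1 hz).2 f hf hx

/-- If |N[u] ∪ N[v]| ≤ B for adjacent u, v then the sum of 1/(B - deg v) over the missed neighbours of a covered vertex is at most 1. -/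
lemma MM.sum_SU (h : MM H M w) {B : ℝ} (hB : ∀ e ∈ H, ∀ u ∈ e, ∀ v ∈ e, u ≠ v →
    ((nbhd H u ∪ nbhd H v).card : ℝ) ≤ B) {u : V} (hu : ¬ Miss M u) :
    ∑ v ∈ SU H M u, (B - ((H.filter (fun g => v ∈ g)).card : ℝ))⁻¹ ≤ 1 := by
  classical
  rcases Nat.eq_zero_or_pos (SU H M u).card with h0 | h0
  · rw [Finset.card_eq_zero] at h0
    rw [h0]
    simp
  · have h1 : ∀ v ∈ SU H M u, (B - ((H.filter (fun g => v ∈ g)).card : ℝ))⁻¹ ≤ ((SU H M u).card : ℝ)⁻¹ := by
      intro v hv
      have hv' := mem_filter.1 hv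
      have hne : u ≠ v := by
        rintro rfl
        exact hu hv'.2
      obtain ⟨e, he, hve⟩ := mem_biUnion.1 hv'.1
      have he' := mem_filter.1 he
      have h2 := h.count (u := u) hv'.2
      have h3 := hB e he'.1 u he'.2 v hve hne
      have h4 : ((SU H M u).card : ℝ) + ((H.filter (fun g => v ∈ g)).card : ℝ) ≤ ((nbhd H u ∪ nbhd H v).card : ℝ) := by
        exact_mod_cast h2
      have h5 : (0 : ℝ) < ((SU H M u).card : ℝ) := by exact_mod_cast h0
      exact inv_anti₀ h5 (by linarith)
    refine (Finset.sum_le_card_nsmul _ _ _ h1).trans ?_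
    rw [nsmul_eq_mul]
    have h5 : ((SU H M u).card : ℝ) ≠ 0 := by
      have : (SU H M u).card ≠ 0 := by omega
      exact_mod_cast this
    rw [mul_inv_cancel₀ h5]

open Classical in
/-- The local inequality. -/
theorem MM.loc (h : MM H M w) {B : ℝ} (hB : ∀ e ∈ H, ∀ u ∈ e, ∀ v ∈ e, u ≠ v →
    ((nbhd H u ∪ nbhd H v).card : ℝ) ≤ B) (hB0 : ∀ e ∈ H, ∀ v ∈ e, ((H.filter (fun g => v ∈ g)).card : ℝ) < B) :
    ∑ e ∈ H, w e * ∑ v ∈ e, (if Miss M v then (B - ((H.filter (fun g => v ∈ g)).card : ℝ))⁻¹ else 0) ≤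
      ∑ f ∈ M, w f * f.card := by
  set c : V → ℝ := fun v => (if Miss M v then (B - ((H.filter (fun g => v ∈ g)).card : ℝ))⁻¹ else 0) with hc
  have hc0 : ∀ e ∈ H, 0 ≤ ∑ v ∈ e, c v := by
    intro e he
    refine Finset.sum_nonneg fun v hv => ?_
    simp only [hc]
    split_ifs
    · exact inv_nonneg.2 (sub_nonneg.2 (hB0 e he v hv).le)
    · exact le_rfl
  have hcM : ∀ e ∈ M, ∑ v ∈ e, c v = 0 := by
    intro e he
    refine Finset.sum_eq_zero fun v hv => ?_
    simp only [hc]
    rw [if_neg]
    intro hm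
    exact hm e he hv
  calc ∑ e ∈ H, w e * ∑ v ∈ e, c v
      = ∑ e ∈ H \ M, w e * ∑ v ∈ e, c v := by
        rw [← Finset.sum_sdiff h.sub]
        have z : ∑ e ∈ M, w e * ∑ v ∈ e, c v = 0 := by
          refine Finset.sum_eq_zero fun e he => ?_
          rw [hcM e he, mul_zero]
        rw [z, add_zero]
    _ ≤ ∑ e ∈ H \ M, (∑ f ∈ hit M e, w f) * ∑ v ∈ e, c v := by
        refine Finset.sum_le_sum fun e he => ?_
        exact mul_le_mul_of_nonneg_right (h.exch (mem_sdiff.1 he).1) (hc0 e (mem_sdiff.1 he).1)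
    _ = ∑ e ∈ H \ M, ∑ f ∈ hit M e, w f * ∑ v ∈ e, c v := by
        refine Finset.sum_congr rfl fun e _ => ?_
        rw [Finset.sum_mul]
    _ = ∑ f ∈ M, ∑ e ∈ meets H f, w f * ∑ v ∈ e, c v := by
        refine Finset.sum_comm' ?_
        intro e f
        rw [mem_sdiff, mem_hit, mem_meets]
        constructor
        · rintro ⟨⟨he, heM⟩, hf, hd⟩
          refine ⟨⟨he, ?_, hd⟩, hf⟩
          rintro rfl
          exact heM hf
        · rintro ⟨⟨he, hne, hd⟩, hf⟩
          exact ⟨⟨he, fun heM => hd (h.mat e heM f hf hne)⟩, hf, hd⟩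
    _ ≤ ∑ f ∈ M, w f * f.card := by
        refine Finset.sum_le_sum fun f hf => ?_
        rw [← Finset.mul_sum]
        refine mul_le_mul_of_nonneg_left ?_ (h.pos f (h.sub hf)).le
        have h1 : ∑ e ∈ meets H f, ∑ v ∈ e, c v ≤ ∑ u ∈ f, ∑ e ∈ (meets H f).filter (fun e => u ∈ e), ∑ v ∈ e, c v := by
          have h2 : ∑ u ∈ f, ∑ e ∈ (meets H f).filter (fun e => u ∈ e), ∑ v ∈ e, c v =
              ∑ e ∈ meets H f, ∑ u ∈ f.filter (fun u => u ∈ e), ∑ v ∈ e, c v := by
            refine Finset.sum_comm' ?_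
            intro u e
            simp only [mem_filter]
            tauto
          rw [h2]
          refine Finset.sum_le_sum fun e he => ?_
          rw [Finset.sum_const, nsmul_eq_mul]
          have he' := mem_meets.1 he
          have h3 : 1 ≤ (f.filter (fun u => u ∈ e)).card := by
            rw [Nat.one_le_iff_ne_zero, Finset.card_ne_zero]
            obtain ⟨x, hx, hx'⟩ := Finset.not_disjoint_iff.1 he'.2.2
            exact ⟨x, mem_filter.2 ⟨hx', hx⟩⟩
          have h4 : (1 : ℝ) ≤ ((f.filter (fun u => u ∈ e)).card : ℝ) := by exact_mod_cast h3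
          have h5 := hc0 e he'.1
          nlinarith
        refine h1.trans ?_
        have h6 : (f.card : ℝ) = ∑ u ∈ f, (1 : ℝ) := by simp
        rw [h6]
        refine Finset.sum_le_sum fun u hu => ?_
        have hu' : ¬ Miss M u := fun hm => hm f hf hu
        refine le_trans ?_ (h.sum_SU hB hu')
        have h7 : ∀ e ∈ (meets H f).filter (fun e => u ∈ e), ∑ v ∈ e, c v =
            ∑ v ∈ e.filter (Miss M), (B - ((H.filter (fun g => v ∈ g)).card : ℝ))⁻¹ := by
          intro e _
          simp only [hc]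
          rw [Finset.sum_filter]
        rw [Finset.sum_congr rfl h7, ← Finset.sum_biUnion]
        · refine Finset.sum_le_sum_of_subset_of_nonneg ?_ ?_
          · intro v hv
            rw [mem_biUnion] at hv
            obtain ⟨e, he, hv⟩ := hv
            rw [mem_filter] at he hv
            rw [SU, mem_filter]
            refine ⟨?_, hv.2⟩
            rw [nbhd, mem_biUnion]
            exact ⟨e, mem_filter.2 ⟨(mem_meets.1 he.1).1, he.2⟩, hv.1⟩
          · intro v hv _
            rw [SU, mem_filter, nbhd, mem_biUnion] at hv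
            obtain ⟨⟨e, he, hve⟩, _⟩ := hv
            exact inv_nonneg.2 (sub_nonneg.2 (hB0 e (mem_filter.1 he).1 v hve).le)
        · intro e he e' he' hne
          rw [Function.onFun, Finset.disjoint_left]
          intro v hv hv'
          rw [Finset.mem_coe, mem_filter] at he he'
          rw [mem_filter] at hv hv'
          have h8 := h.lin.eq_of_mem (mem_meets.1 he.1).1 (mem_meets.1 he'.1).1 hne hv.1 hv'.1 he.2 he'.2
          rw [h8] at hv
          exact hu' hv.2

/-- The averaging step. -/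
theorem avg {k : ℝ} {y : Finset (Finset V) → ℝ} (h : OptPair H k w y) (hlin : IsLinear H)
    (hsz : ∀ e ∈ H, 2 ≤ e.card) (hne : H.Nonempty) (hpos : ∀ e ∈ H, 0 < w e) {B : ℝ}
    (hB : ∀ e ∈ H, ∀ u ∈ e, ∀ v ∈ e, u ≠ v → ((nbhd H u ∪ nbhd H v).card : ℝ) ≤ B)
    (hB0 : ∀ e ∈ H, ∀ v ∈ e, ((H.filter (fun g => v ∈ g)).card : ℝ) < B) : k ≤ B := by
  classical
  set deg : V → ℝ := fun u => ((H.filter (fun g => u ∈ g)).card : ℝ) with hdeg
  set ms : Finset (Finset V) → V → ℝ := fun M v => if Miss M v then (B - deg v)⁻¹ else 0 with hms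
  have key : ∀ M ∈ matchings H, y M * ∑ e ∈ H, w e * ∑ v ∈ e, ms M v ≤ y M * ∑ f ∈ M, w f * f.card := by
    intro M hM
    by_cases hyM : y M = 0
    · rw [hyM]; simp
    refine mul_le_mul_of_nonneg_left ?_ (h.y0 M)
    rw [mem_matchings] at hM
    have hw1 := h.slacky M (mem_matchings.2 hM) hyM
    have hmax : MM H M w := ⟨hlin, hM.1, hM.2, hpos, fun N hN hNm => by
      rw [hw1]; exact h.pack N (mem_matchings.2 ⟨hN, hNm⟩), hsz⟩
    exact hmax.loc hB hB0
  have hsum := Finset.sum_le_sum key
  have covsum : ∀ v, ∑ M ∈ matchings H, y M * ((M.filter (fun g => v ∈ g)).card : ℝ) = deg v := by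
    intro v
    calc ∑ M ∈ matchings H, y M * ((M.filter (fun g => v ∈ g)).card : ℝ)
        = ∑ M ∈ matchings H, ∑ g ∈ M.filter (fun g => v ∈ g), y M := by
          refine Finset.sum_congr rfl fun M _ => ?_
          rw [Finset.sum_const, nsmul_eq_mul, mul_comm]
      _ = ∑ g ∈ H.filter (fun g => v ∈ g), ∑ M ∈ (matchings H).filter (fun M => g ∈ M), y M := by
          refine Finset.sum_comm' ?_
          intro M g
          simp only [mem_filter, mem_matchings]
          constructor
          · rintro ⟨⟨h1, h2⟩, h3, h4⟩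
            exact ⟨⟨⟨h1, h2⟩, h3⟩, h1 h3, h4⟩
          · rintro ⟨⟨⟨h1, h2⟩, h3⟩, _, h4⟩
            exact ⟨⟨h1, h2⟩, h3, h4⟩
      _ = ∑ g ∈ H.filter (fun g => v ∈ g), 1 := by
          refine Finset.sum_congr rfl fun g hg => ?_
          have hg' := (mem_filter.1 hg).1
          exact h.slackw g hg' (hpos g hg').ne'
      _ = deg v := by simp [hdeg]
  have hmc : ∀ M ∈ matchings H, ∀ v, ms M v = (1 - ((M.filter (fun g => v ∈ g)).card : ℝ)) * (B - deg v)⁻¹ := by
    intro M hM v
    rw [mem_matchings] at hM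
    have h1 : (M.filter (fun g => v ∈ g)).card ≤ 1 := by
      rw [Finset.card_le_one]
      intro a ha b hb
      rw [mem_filter] at ha hb
      by_contra hab
      have := hM.2 a ha.1 b hb.1 hab
      rw [Finset.disjoint_left] at this
      exact this ha.2 hb.2
    simp only [hms]
    by_cases hm : Miss M v
    · rw [if_pos hm]
      have h2 : (M.filter (fun g => v ∈ g)) = ∅ := by
        rw [Finset.filter_eq_empty_iff]
        intro g hg
        exact hm g hg
      rw [h2]
      simp
    · rw [if_neg hm]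
      have h2 : (M.filter (fun g => v ∈ g)).card = 1 := by
        refine le_antisymm h1 ?_
        rw [Nat.one_le_iff_ne_zero, Finset.card_ne_zero]
        unfold Miss at hm
        push Not at hm
        obtain ⟨f, hf, hvf⟩ := hm
        exact ⟨f, mem_filter.2 ⟨hf, hvf⟩⟩
      rw [h2]
      simp
  have lhs : ∑ M ∈ matchings H, y M * ∑ e ∈ H, w e * ∑ v ∈ e, ms M v =
      ∑ e ∈ H, w e * ∑ v ∈ e, (k - deg v) * (B - deg v)⁻¹ := by
    have e1 : ∀ M ∈ matchings H, y M * ∑ e ∈ H, w e * ∑ v ∈ e, ms M v =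
        y M * ∑ e ∈ H, w e * ∑ v ∈ e, (1 - ((M.filter (fun g => v ∈ g)).card : ℝ)) * (B - deg v)⁻¹ := by
      intro M hM
      congr 1
      refine Finset.sum_congr rfl fun e _ => ?_
      congr 1
      exact Finset.sum_congr rfl fun v _ => hmc M hM v
    rw [Finset.sum_congr rfl e1]
    simp only [Finset.mul_sum]
    rw [Finset.sum_comm]
    refine Finset.sum_congr rfl fun e _ => ?_
    rw [Finset.sum_comm]
    refine Finset.sum_congr rfl fun v _ => ?_
    rw [← covsum v, ← h.yk, ← Finset.sum_sub_distrib, Finset.sum_mul, Finset.mul_sum]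
    refine Finset.sum_congr rfl fun M _ => ?_
    ring
  have rhs : ∑ M ∈ matchings H, y M * ∑ f ∈ M, w f * f.card = ∑ e ∈ H, w e * e.card := by
    calc ∑ M ∈ matchings H, y M * ∑ f ∈ M, w f * f.card
        = ∑ M ∈ matchings H, ∑ f ∈ M, y M * (w f * f.card) := by
          refine Finset.sum_congr rfl fun M _ => ?_
          rw [Finset.mul_sum]
      _ = ∑ f ∈ H, ∑ M ∈ (matchings H).filter (fun M => f ∈ M), y M * (w f * f.card) := by
          refine Finset.sum_comm' ?_
          intro M g
          simp only [mem_filter, mem_matchings]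
          constructor
          · rintro ⟨⟨h1, h2⟩, h3⟩
            exact ⟨⟨⟨h1, h2⟩, h3⟩, h1 h3⟩
          · rintro ⟨⟨⟨h1, h2⟩, h3⟩, _⟩
            exact ⟨⟨h1, h2⟩, h3⟩
      _ = ∑ f ∈ H, w f * f.card := by
          refine Finset.sum_congr rfl fun f hf => ?_
          rw [← Finset.sum_mul, h.slackw f hf (hpos f hf).ne', one_mul]
  rw [lhs, rhs] at hsum
  by_contra hcon
  push Not at hcon
  have hlt : ∑ e ∈ H, w e * (e.card : ℝ) < ∑ e ∈ H, w e * ∑ v ∈ e, (k - deg v) * (B - deg v)⁻¹ := by
    refine Finset.sum_lt_sum_of_nonempty hne fun e he => ?_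
    refine mul_lt_mul_of_pos_left ?_ (hpos e he)
    have h6 : (e.card : ℝ) = ∑ u ∈ e, (1 : ℝ) := by simp
    rw [h6]
    have h2 : 2 ≤ e.card := hsz e he
    refine Finset.sum_lt_sum_of_nonempty (Finset.card_pos.1 (by omega)) fun v hv => ?_
    have h3 : deg v < B := hB0 e he v hv
    rw [← div_eq_mul_inv, one_lt_div (sub_pos.2 h3)]
    linarith
  linarith

/-- The semi-local bound, in dual form. -/
theorem dual_semilocal (B : ℝ) (H : Finset (Finset V)) (hlin : IsLinear H) (hsz : ∀ e ∈ H, 2 ≤ e.card)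
    (hB : ∀ e ∈ H, ∀ u ∈ e, ∀ v ∈ e, u ≠ v → ((nbhd H u ∪ nbhd H v).card : ℝ) ≤ B) (hBp : 0 ≤ B) : Dual H B := by
  classical
  induction H using Finset.strongInduction with
  | H H ih =>
    rcases H.eq_empty_or_nonempty with rfl | hne
    · intro w _
      exact ⟨∅, mem_matchings.2 ⟨Subset.refl _, by intro e he; simp at he⟩, by simp⟩
    obtain ⟨k, w, y, hopt⟩ := exists_optPair H hne
    refine hopt.dual ?_
    by_contra hkD
    push Not at hkD
    have hpos : ∀ e ∈ H, 0 < w e := by
      by_contra hcon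
      push Not at hcon
      obtain ⟨e0, he0, hw0⟩ := hcon
      have hw0' : w e0 = 0 := le_antisymm hw0 (hopt.w0 e0)
      have hsub := erase_subset e0 H
      obtain ⟨M, hM, hMw⟩ := ih _ (erase_ssubset he0) (hlin.mono hsub) (fun e he => hsz e (hsub he))
        (fun e he u hu v hv huv => le_trans (by
          have h1 : (nbhd (H.erase e0) u ∪ nbhd (H.erase e0) v).card ≤ (nbhd H u ∪ nbhd H v).card :=
            Finset.card_le_card (Finset.union_subset_union (nbhd_mono hsub u) (nbhd_mono hsub v))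
          exact_mod_cast h1) (hB e (hsub he) u hu v hv huv)) w hopt.w0
      rw [mem_matchings] at hM
      have h1 := hopt.pack M (mem_matchings.2 ⟨hM.1.trans (erase_subset _ _), hM.2⟩)
      have h2 : ∑ e ∈ H.erase e0, w e = k := by
        rw [← hopt.wk, ← Finset.add_sum_erase _ _ he0, hw0', zero_add]
      rw [h2] at hMw
      have h3 : B * ∑ e ∈ M, w e ≤ B * 1 := mul_le_mul_of_nonneg_left h1 hBp
      linarith
    have hB0 : ∀ e ∈ H, ∀ v ∈ e, ((H.filter (fun g => v ∈ g)).card : ℝ) < B := by
      intro e he v hv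
      have h1 := hsz e he
      obtain ⟨u, hu, huv⟩ := Finset.exists_mem_ne (by omega : 1 < e.card) v
      refine lt_of_lt_of_le ?_ (hB e he u hu v hv huv)
      have h2 := card_nbhd hlin ⟨e, he, hv⟩
      have h3 : (H.filter (fun g => v ∈ g)).card ≤ ∑ e ∈ H.filter (fun e => v ∈ e), (e.card - 1) := by
        rw [Finset.card_eq_sum_ones]
        refine Finset.sum_le_sum fun g hg => ?_
        have := hsz g (mem_filter.1 hg).1
        omega
      have h4 : (nbhd H v).card ≤ (nbhd H u ∪ nbhd H v).card := Finset.card_le_card subset_union_right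
      exact_mod_cast (by omega : (H.filter (fun g => v ∈ g)).card < (nbhd H u ∪ nbhd H v).card)
    have := avg hopt hlin hsz hne hpos hB hB0
    linarith

end Pool.Agent.H43S
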